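import Mathlib

/-!
# Statements for the realisation of torsions over finite groups
-/

set_option autoImplicit false

namespace Pool.Agent.Y942.WJ

/-- Permutation representations with the same character are isomorphic over `ℚ`: if two actions of
a finite group on the same finite set have the same numbers of fixed points for all group elements,
there is an invariant integer matrix with non-zero determinant. -/
def S_INT : Prop := ∀ (G X : Type) [Group G] [Finite G] [Fintype X] [DecidableEq X]
  (ρ σ : G →* Equiv.Perm X),
  (∀ g : G, Nat.card {x : X // ρ g x = x} = Nat.card {x : X // σ g x = x}) →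
    ∃ P : Matrix X X ℤ, P.det ≠ 0 ∧ ∀ (g : G) (x y : X), P (σ g x) (ρ g y) = P x y

/-- the number of fixed points of `g` on `G ⧸ ⟨s⟩` -/
noncomputable def fx {G : Type} [Group G] (s g : G) : ℕ :=
  Nat.card {x : G ⧸ Subgroup.zpowers s // g • x = x}

/-- Artin's induction theorem for the trivial character, with permutation characters -/
def S_ART : Prop := ∀ (G : Type) [Group G] [Finite G], ∃ l m : List G, ∀ g : G,
  Nat.card G + (l.map (fun s => fx s g)).sum = (m.map (fun s => fx s g)).sum

/-- a non-zero real intertwiner of maximal rank is invertible: the real version of `S_INT` -/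
def S_REAL : Prop := ∀ (G X : Type) [Group G] [Fintype G] [Fintype X] [DecidableEq X]
  (ρ σ : G →* Equiv.Perm X),
  (∀ g : G, Nat.card {x : X // ρ g x = x} = Nat.card {x : X // σ g x = x}) →
    ∃ P : Matrix X X ℝ, P.det ≠ 0 ∧ ∀ (g : G) (x y : X), P (σ g x) (ρ g y) = P x y

/-- from a real invariant matrix to an integer one -/
def S_DESC : Prop := ∀ (G X : Type) [Group G] [Fintype G] [Fintype X] [DecidableEq X]
  (ρ σ : G →* Equiv.Perm X),
  (∃ P : Matrix X X ℝ, P.det ≠ 0 ∧ ∀ (g : G) (x y : X), P (σ g x) (ρ g y) = P x y) →
    ∃ P : Matrix X X ℤ, P.det ≠ 0 ∧ ∀ (g : G) (x y : X), P (σ g x) (ρ g y) = P x y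

end Pool.Agent.Y942.WJ
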